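import Pool.Agent.Helper72.LGS.Defs

/-!
# Subnormal series: quotients, normal subgroups, solvable groups
-/

set_option autoImplicit false

namespace Pool.Agent.Helper72.LGS

open Subgroup

/-- the series goes up -/
lemma mono_of_le {G : Type*} [Group G] {r : ℕ} {f : ℕ → Subgroup G}
    (h : ∀ i < r, f i ≤ f (i + 1)) {i j : ℕ} (hij : i ≤ j) (hj : j ≤ r) : f i ≤ f j := by
  induction j, hij using Nat.le_induction with
  | base => exact le_refl _
  | succ j _ ih => exact (ih (by omega)).trans (h j (by omega))

/-- the image of a normal step is a normal step -/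
lemma normal_map {G G' : Type*} [Group G] [Group G'] (π : G →* G') {K L : Subgroup G}
    (hKL : K ≤ L) (hn : (K.subgroupOf L).Normal) :
    ((K.map π).subgroupOf (L.map π)).Normal := by
  rw [normal_subgroupOf_iff hKL] at hn
  rw [normal_subgroupOf_iff (Subgroup.map_mono hKL)]
  rintro _ _ ⟨h, hh, rfl⟩ ⟨k, hk, rfl⟩
  exact ⟨k * h * k⁻¹, hn h k hh hk, by rw [map_mul, map_mul, map_inv]⟩

/-- the index of the image of a step divides the index of the step -/
lemma relIndex_map_dvd {G G' : Type*} [Group G] [Group G'] (π : G →* G') (K L : Subgroup G) :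
    (K.map π).relIndex (L.map π) ∣ K.relIndex L := by
  have h1 : (K.map π).relIndex (L.map π) =
      (((K.map π).subgroupOf (L.map π)).comap (π.subgroupMap L)).index :=
    (index_comap_of_surjective _ (π.subgroupMap_surjective L)).symm
  rw [h1]
  apply index_dvd_of_le
  intro x hx
  exact ⟨x.1, hx, rfl⟩

theorem ser_quotient {M : ℕ} (hM : 1 ≤ M) {G : Type*} [Group G] [Finite G] (h : Ser M G)
    (D : Subgroup G) [D.Normal] : Ser M (G ⧸ D) := by
  obtain ⟨r, f, h0, hr, h1⟩ := h
  refine ⟨r, fun i => (f i).map (QuotientGroup.mk' D), ?_, ?_, ?_⟩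
  · show (f 0).map _ = ⊥
    rw [h0, Subgroup.map_bot]
  · show (f r).map _ = ⊤
    rw [hr, ← MonoidHom.range_eq_map, MonoidHom.range_eq_top]
    exact QuotientGroup.mk'_surjective D
  · intro i hi
    obtain ⟨a, b, c⟩ := h1 i hi
    refine ⟨Subgroup.map_mono a, normal_map _ a b, ?_⟩
    have hd := relIndex_map_dvd (QuotientGroup.mk' D) (f i) (f (i + 1))
    rcases c with c | c
    · rcases (Nat.dvd_prime c).1 hd with e | e
      · right
        show ((f i).map _).relIndex ((f (i + 1)).map _) ≤ M
        rw [e]
        exact hM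
      · left
        show (((f i).map _).relIndex ((f (i + 1)).map _)).Prime
        rw [e]
        exact c
    · right
      refine (Nat.le_of_dvd ?_ hd).trans c
      exact Nat.pos_of_ne_zero (Subgroup.index_ne_zero_of_finite
        (H := (f i).subgroupOf (f (i + 1))))

theorem ser_descend {M : ℕ} {G : Type*} [Group G] [Finite G] (h : Ser M G)
    (hG : 1 < Nat.card G) :
    ∃ N : Subgroup G, N.Normal ∧ N ≠ ⊤ ∧ (N.index.Prime ∨ N.index ≤ M) ∧ Ser M N := by
  classical
  obtain ⟨r, f, h0, hr, h1⟩ := h
  have hbt : (⊥ : Subgroup G) ≠ ⊤ := by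
    intro e
    have := Subgroup.card_top (G := G)
    rw [← e, Subgroup.card_bot] at this
    omega
  -- the last proper term
  have hex : ∃ i, i < r ∧ f i ≠ ⊤ ∧ f (i + 1) = ⊤ := by
    by_contra hcon
    push Not at hcon
    have : ∀ i, i ≤ r → f i ≠ ⊤ := by
      intro i
      induction i with
      | zero => intro _; rw [h0]; exact hbt
      | succ i ih => intro hi; exact hcon i (by omega) (ih (by omega))
    exact this r le_rfl hr
  obtain ⟨i, hi, hne, htop⟩ := hex
  obtain ⟨a, b, c⟩ := h1 i hi
  rw [htop] at b c
  rw [Subgroup.relIndex_top_right] at c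
  have hN : (f i).Normal := by
    rw [normal_subgroupOf_iff le_top] at b
    exact ⟨fun n hn g => b n g hn trivial⟩
  refine ⟨f i, hN, hne, c, i, fun j => (f j).subgroupOf (f i), ?_, ?_, ?_⟩
  · show (f 0).subgroupOf (f i) = ⊥
    rw [h0, Subgroup.bot_subgroupOf]
  · exact Subgroup.subgroupOf_self _
  · intro j hj
    obtain ⟨a', b', c'⟩ := h1 j (by omega)
    have hle : f (j + 1) ≤ f i := mono_of_le (r := r) (fun k hk => (h1 k hk).1) (by omega) (by omega)
    have hle' : (f j).subgroupOf (f i) ≤ (f (j + 1)).subgroupOf (f i) := fun x hx => a' hx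
    refine ⟨hle', ?_, ?_⟩
    · rw [normal_subgroupOf_iff a'] at b'
      show (((f j).subgroupOf (f i)).subgroupOf ((f (j + 1)).subgroupOf (f i))).Normal
      rw [normal_subgroupOf_iff hle']
      intro x y hx hy
      exact b' x.1 y.1 hx hy
    · show (((f j).subgroupOf (f i)).relIndex ((f (j + 1)).subgroupOf (f i))).Prime ∨
        ((f j).subgroupOf (f i)).relIndex ((f (j + 1)).subgroupOf (f i)) ≤ M
      rw [Subgroup.relIndex_subgroupOf hle]
      exact c'

/-- one more step -/
lemma ser_extend {M : ℕ} {G : Type*} [Group G] (N : Subgroup G) (hN : N.Normal)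
    (hi : N.index.Prime ∨ N.index ≤ M) (h : Ser M N) : Ser M G := by
  classical
  obtain ⟨r, f, h0, hr, h1⟩ := h
  have e1 : ∀ j, j ≤ r → (if j ≤ r then (f j).map N.subtype else ⊤ : Subgroup G) =
      (f j).map N.subtype := fun j hj => if_pos hj
  have e2 : (f r).map N.subtype = N := by
    rw [hr, ← MonoidHom.range_eq_map, Subgroup.range_subtype]
  refine ⟨r + 1, fun j => if j ≤ r then (f j).map N.subtype else ⊤, ?_, ?_, ?_⟩
  · show (if 0 ≤ r then (f 0).map N.subtype else ⊤ : Subgroup G) = ⊥
    rw [e1 0 (by omega), h0, Subgroup.map_bot]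
  · exact if_neg (by omega)
  · intro j hj
    show (if j ≤ r then (f j).map N.subtype else ⊤ : Subgroup G) ≤
        (if j + 1 ≤ r then (f (j + 1)).map N.subtype else ⊤ : Subgroup G) ∧
      ((if j ≤ r then (f j).map N.subtype else ⊤ : Subgroup G).subgroupOf
        (if j + 1 ≤ r then (f (j + 1)).map N.subtype else ⊤ : Subgroup G)).Normal ∧
      (((if j ≤ r then (f j).map N.subtype else ⊤ : Subgroup G).relIndex
        (if j + 1 ≤ r then (f (j + 1)).map N.subtype else ⊤ : Subgroup G)).Prime ∨
      ((if j ≤ r then (f j).map N.subtype else ⊤ : Subgroup G).relIndex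
        (if j + 1 ≤ r then (f (j + 1)).map N.subtype else ⊤ : Subgroup G)) ≤ M)
    rw [e1 j (by omega)]
    by_cases hjr : j < r
    · rw [e1 (j + 1) (by omega)]
      obtain ⟨a, b, c⟩ := h1 j hjr
      refine ⟨Subgroup.map_mono a, normal_map _ a b, ?_⟩
      rw [Subgroup.relIndex_map_map_of_injective _ _ N.subtype_injective]
      exact c
    · have hjr' : j = r := by omega
      subst hjr'
      rw [if_neg (by omega), e2, Subgroup.relIndex_top_right]
      refine ⟨le_top, ?_, hi⟩
      rw [normal_subgroupOf_iff le_top]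
      exact fun h k hh _ => hN.conj_mem h hh k

/-- the series exists for the trivial group -/
lemma ser_of_card_one {M : ℕ} {G : Type*} [Group G] (h : Nat.card G = 1) : Ser M G := by
  refine ⟨0, fun _ => ⊥, rfl, ?_, fun i hi => absurd hi (by omega)⟩
  have : Subsingleton G := (Nat.card_eq_one_iff_unique.1 h).1
  exact Subsingleton.elim _ _

/-- a finite nontrivial commutative group has a subgroup of prime index -/
lemma exists_index_prime {A : Type*} [CommGroup A] [Finite A] [Nontrivial A] :
    ∃ H : Subgroup A, H.index.Prime := by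
  obtain ⟨H, hH⟩ : ∃ H : Subgroup A, IsCoatom H := by
    rcases eq_top_or_exists_le_coatom (⊥ : Subgroup A) with h | ⟨H, hH, -⟩
    · exact absurd h bot_ne_top
    · exact ⟨H, hH⟩
  refine ⟨H, ?_⟩
  have hnt : Nontrivial (A ⧸ H) := by
    rw [← Finite.one_lt_card_iff_nontrivial]
    have h1 : H.index ≠ 1 := fun e => hH.1 (Subgroup.index_eq_one.1 e)
    have h2 : H.index ≠ 0 := Subgroup.index_ne_zero_of_finite
    have h3 : H.index = Nat.card (A ⧸ H) := rfl
    omega
  have hs : IsSimpleGroup (A ⧸ H) := by
    refine ⟨fun K _ => ?_⟩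
    have h1 : H ≤ K.comap (QuotientGroup.mk' H) := by
      intro x hx
      show QuotientGroup.mk' H x ∈ K
      have : QuotientGroup.mk' H x = 1 := (QuotientGroup.eq_one_iff x).2 hx
      rw [this]
      exact K.one_mem
    rcases eq_or_lt_of_le h1 with h2 | h2
    · left
      rw [eq_bot_iff]
      intro y hy
      obtain ⟨x, rfl⟩ := QuotientGroup.mk'_surjective H y
      have hx : x ∈ K.comap (QuotientGroup.mk' H) := hy
      rw [← h2] at hx
      exact (QuotientGroup.eq_one_iff x).2 hx
    · right
      have h3 := hH.2 _ h2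
      rw [eq_top_iff]
      rintro y -
      obtain ⟨x, rfl⟩ := QuotientGroup.mk'_surjective H y
      have hx : x ∈ K.comap (QuotientGroup.mk' H) := by rw [h3]; trivial
      exact hx
  exact IsSimpleGroup.prime_card (α := A ⧸ H)

universe u

lemma ser_of_solvable_aux {M : ℕ} (n : ℕ) : ∀ (H : Type u) [Group H] [Finite H]
    [Group.IsSolvable H], Nat.card H = n → Ser M H := by
  classical
  induction n using Nat.strong_induction_on with
  | _ n ih =>
    intro H _ _ _ hH
    by_cases h1 : Nat.card H = 1
    · exact ser_of_card_one h1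
    · have hpos : 0 < Nat.card H := Nat.card_pos
      have hnt : Nontrivial H := by
        rw [← Finite.one_lt_card_iff_nontrivial]
        omega
      have hlt : commutator H < ⊤ := Group.IsSolvable.commutator_lt_top_of_nontrivial H
      have hab : Nontrivial (Abelianization H) := by
        rw [← not_subsingleton_iff_nontrivial]
        intro hs
        apply hlt.ne
        rw [eq_top_iff]
        rintro x -
        have : Abelianization.of x = 1 := Subsingleton.elim _ _
        exact (QuotientGroup.eq_one_iff x).1 this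
      obtain ⟨K, hK⟩ := exists_index_prime (A := Abelianization H)
      -- the preimage in `H`
      have hidx : (K.comap Abelianization.of).index = K.index :=
        Subgroup.index_comap_of_surjective _ (QuotientGroup.mk'_surjective _)
      have hnor : (K.comap (Abelianization.of (G := H))).Normal :=
        Subgroup.Normal.comap inferInstance _
      refine ser_extend (K.comap (Abelianization.of (G := H))) hnor (Or.inl (hidx ▸ hK)) ?_
      have hcard : Nat.card (K.comap (Abelianization.of (G := H))) < n := by
        have h3 := Subgroup.card_mul_index (K.comap (Abelianization.of (G := H)))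
        rw [hidx, hH] at h3
        have h4 := hK.two_le
        have h5 : 0 < Nat.card (K.comap (Abelianization.of (G := H))) := Nat.card_pos
        nlinarith
      exact ih _ hcard _ rfl

theorem ser_of_solvable {M : ℕ} (_hM : 1 ≤ M) {G : Type*} [Group G] [Finite G]
    [Group.IsSolvable G] : Ser M G :=
  ser_of_solvable_aux (Nat.card G) G rfl

end Pool.Agent.Helper72.LGS
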